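import Pool.Agent.H7.HD.Targets7

/-!
# MP_e37c09_lc: module VK, the cofinality of `v a (n γ)`
-/

open Ordinal Cardinal Order Set
open scoped ZFSet

universe u

namespace Pool.Agent.H86.HD.VK

open _root_.HD

/-- VK. -/
theorem vk (hVL : T_VL.{u}) (hVU : T_VU.{u}) (hCP : T_CP.{u}) (hOL : T_OL.{u})
    (hCI : T_CI.{u}) : T_VK.{u} := by
  intro en N M K lam c d x hT f n hSj hNrm hpos
  have hN0 : ℵ₀ ≤ N := hT.nreg.aleph0_le
  have hK0 : ℵ₀ < K := hN0.trans_lt (hT.nm.trans hT.mK)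
  have hcK : K.ord.cof = K := hT.kreg.cof_ord
  have hKc : ℵ₀ < K.ord.cof := by rw [hcK]; exact hK0
  have hlim : IsSuccLimit lam := hT.reg.1
  obtain ⟨C1, hC1, h1⟩ := hCP K lam f hT.kreg hK0 hSj (fun x _ => succ x)
    (fun x hx _ _ => hlim.succ_lt hx)
  obtain ⟨C2, hC2, h2⟩ := hCP K lam f hT.kreg hK0 hSj (fun _ _ => 0)
    (fun x hx _ _ => lt_of_le_of_lt zero_le hx)
  obtain ⟨C3, hC3, h3⟩ := hOL K lam f hT.kreg hK0 hSj
  have hC := hCI K.ord _ _ hKc (hCI K.ord _ _ hKc hC1 hC2) hC3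
  have hp1 := pos_diff All.va hKc hpos (hVL en N M K lam c d x hT f n hSj hNrm)
  have hp2 := pos_diff All.va hKc hp1 (hVU en N M K lam c d x hT f n hSj hNrm)
  obtain ⟨γ, hγK, ⟨⟨hγ1, hγ2⟩, hγ3⟩, ⟨⟨⟨hE, a, haX, haK, hareg, hacof⟩, hnVL⟩, hnVU⟩, hcf⟩ :=
    hp2 _ hC
  have hγcof : γ.cof = M := ord_injective hcf
  have hVL' : ∀ t ∈ f '' Iio γ, t < a → t < vx en N d x a (n γ) := by
    intro t ht hta
    by_contra h
    exact hnVL ⟨hE, a, haX, haK, hareg, t, ht, hta, not_lt.1 h⟩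
  have hVU' : ∀ y < vx en N d x a (n γ), ∃ z ∈ f '' Iio γ, z < a ∧ y ≤ z := by
    intro y hy
    by_contra h
    refine hnVU ⟨hE, a, haX, haK, hareg, y, hy, fun z hz hza => ?_⟩
    by_contra h'
    exact h ⟨z, hz, hza, not_lt.1 h'⟩
  have hK0' : 0 < K.ord := by
    rw [Cardinal.ord_pos]
    exact lt_of_lt_of_le aleph0_pos hK0.le
  have h0X : (0 : Ordinal.{u}) ∈ f '' Iio γ := h2 γ hγ2 hγK a haX a haX
  have h0w : 0 < vx en N d x a (n γ) := hVL' 0 h0X (hK0'.trans_le haK)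
  have hsX : ∀ z ∈ f '' Iio γ, succ z ∈ f '' Iio γ := fun z hz => h1 γ hγ1 hγK z hz z hz
  have hsw : ∀ z ∈ f '' Iio γ, z < a → succ z < vx en N d x a (n γ) := fun z hz hza =>
    hVL' _ (hsX z hz) (hareg.1.succ_lt hza)
  have hwlim : IsSuccLimit (vx en N d x a (n γ)) := by
    rw [Ordinal.isSuccLimit_iff]
    refine ⟨h0w.ne', ?_⟩
    refine Order.isSuccPrelimit_of_succ_lt fun y hy => ?_
    obtain ⟨z, hz, hza, hyz⟩ := hVU' y hy
    exact (Order.succ_le_succ hyz).trans_lt (hsw z hz hza)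
  have hwa : vx en N d x a (n γ) ≤ a := by
    by_contra h
    obtain ⟨z, hz, hza, haz⟩ := hVU' a (not_le.1 h)
    exact absurd hza (not_lt.2 haz)
  have hwX : vx en N d x a (n γ) ∈ f '' Iio γ := by
    refine h3 γ hγ3 hγK _ (aleph0_le_cof.2 hwlim) ?_ ?_ ⟨a, haX, hwa⟩
    · rw [hγcof]
      exact hacof.trans_lt hT.nm
    · intro y hy
      obtain ⟨z, hz, hza, hyz⟩ := hVU' y hy
      exact ⟨succ z, hsX z hz, Order.lt_succ_iff.2 hyz, hsw z hz hza⟩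
  rcases hwa.lt_or_eq with h | h
  · exact lt_irrefl _ (hVL' _ hwX h)
  · have halam : a ≤ lam := by
      obtain ⟨t, ht, rfl⟩ := haX
      exact (hSj.lt t (lt_trans ht hγK)).le
    have h5 := hT.rc a haK halam hareg
    rw [h, h5] at hacof
    exact absurd (hT.nm.trans hT.mK) (not_lt.2 hacof)

end Pool.Agent.H86.HD.VK
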