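import Pool.Agent.H7.HD.Targets6

/-!
# MP_e37c09_lc: module NO, normality of the family
-/

open Ordinal Cardinal Order Set
open scoped ZFSet

universe u

namespace Pool.Agent.H86.HD.NO

open _root_.HD

/-- NO. -/
theorem no (hYY : T_YY.{u}) : T_NO.{u} := by
  intro en M K lam c Z hen hlam hreg hat hZ R hR hnull
  obtain ⟨hY, hYu, hY3⟩ := hYY en M K lam c Z hen hlam hat hZ
  have hN : DR fun a z => nth (Yz en M lam c Z) a z :=
    All.db (fun a _ => a ∈ Yz en M lam c Z) (hY.congr fun _ => Iff.rfl)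
  have hW : DO fun w => Z (w 0) (w 1) ∧ ∃ i, nth (Yz en M lam c Z) i (w 1) ∧ R (w 0) i :=
    DO.and hZ.dr (DO.ex (R := fun i w => nth (Yz en M lam c Z) i (w 1) ∧ R (w 0) i)
      ((hN.s2 0 2).and (hR.s2 1 0)))
  obtain ⟨W, hWd⟩ : ∃ W : Ordinal.{u} → Ordinal.{u} → Prop,
      W = fun b z => Z b z ∧ ∃ i, nth (Yz en M lam c Z) i z ∧ R b i := ⟨_, rfl⟩
  have hW' : DR W := by rw [hWd]; exact hW
  have hmem : ∀ b, (∃ z, W b z) → W b (sInf {z | W b z}) := by
    intro b hb
    exact csInf_mem (s := {z | W b z}) hb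
  have hg : DR (fun a b => b = sInf {z | W a z}) := by
    refine DO.congr (A := fun w => (W (w 0) (w 1) ∧ ∀ z, z < w 1 → ¬ W (w 0) z) ∨
      (w 1 = 0 ∧ ∀ z, ¬ W (w 0) z)) ?_ fun w => ?_
    · refine DO.or (DO.and hW' (DO.all (R := fun z w => z < w 1 → ¬ W (w 0) z)
        ((DO.lt 0 2).imp (hW'.s2 1 0).not))) (DO.and (DO.eqc 1 0)
        (DO.all (R := fun z w => ¬ W (w 0) z) (hW'.s2 1 0).not))
    · constructor
      · intro h
        by_cases h1 : ∃ z, W (w 0) z
        · left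
          refine ⟨?_, fun z hz hzW => ?_⟩
          · rw [h]; exact hmem _ h1
          · rw [h] at hz
            exact absurd (csInf_le' (s := {z | W (w 0) z}) hzW) (not_le.2 hz)
        · right
          refine ⟨?_, fun z hz => h1 ⟨z, hz⟩⟩
          rw [h]
          have : {z | W (w 0) z} = ∅ := by
            ext z
            simp only [mem_setOf_eq, mem_empty_iff_false, iff_false]
            exact fun hz => h1 ⟨z, hz⟩
          rw [this, Ordinal.sInf_empty]
      · rintro (⟨h1, h2⟩ | ⟨h1, h2⟩)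
        · refine le_antisymm ?_ (csInf_le' (s := {z | W (w 0) z}) h1)
          by_contra h3
          exact h2 _ (not_le.1 h3) (hmem _ ⟨_, h1⟩)
        · rw [h1]
          have : {z | W (w 0) z} = ∅ := by
            ext z
            simp only [mem_setOf_eq, mem_empty_iff_false, iff_false]
            exact h2 z
          rw [this, Ordinal.sInf_empty]
  have hx : ∀ b, (∃ i, Xz (Yz en M lam c Z) Z b i ∧ R b i) → W b (sInf {z | W b z}) := by
    rintro b ⟨i, ⟨z, h1, h2⟩, h3⟩
    refine hmem b ⟨z, ?_⟩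
    rw [hWd]
    exact ⟨h2, i, h1, h3⟩
  have hE0 : ¬ Pos M.ord lam {β | β ∈ E en c ∧ ¬ Z β (sInf {z | W β z})} := by
    intro hp
    refine hnull (hp.mono fun b _ hbX _ => ⟨hbX.1, fun h => hbX.2 ?_⟩)
    have h1 := hx b h
    rw [hWd] at h1
    have h2 := h1.1
    rw [hWd]
    exact h2
  obtain ⟨z, hz, hnz⟩ := hY3 (fun a => sInf {z | W a z}) hg hE0
  obtain ⟨i, hiz, hni⟩ := (All.vh (Yz en M lam c Z)).1 z hz
  refine ⟨i, hiz.trans_lt hz.1, fun hp => ?_⟩
  refine null_union All.va hlam hnull hnz (hp.mono fun b _ hbX _ => ?_)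
  by_cases h1 : ∃ i, Xz (Yz en M lam c Z) Z b i ∧ R b i
  · right
    refine ⟨hbX.1, fun he => hbX.2 ?_⟩
    have h2 := hx b h1
    have he' : sInf {z | W b z} = z := he
    rw [he', hWd] at h2
    obtain ⟨-, j, h3, h4⟩ := h2
    have hji : j = i := by
      rcases lt_trichotomy j i with h | h | h
      · exact absurd (((All.vh (Yz en M lam c Z)).2.1 _ _ _ _ h3 hni).1 h) (lt_irrefl _)
      · exact h
      · exact absurd (((All.vh (Yz en M lam c Z)).2.1 _ _ _ _ hni h3).1 h) (lt_irrefl _)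
    rw [hji] at h4
    exact h4
  · left
    exact ⟨hbX.1, h1⟩

end Pool.Agent.H86.HD.NO
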